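import Pool.Agent.Q301.SG.Pos

/-!
# Positive groups on ordered Hilbert spaces: the spectral bound is the growth bound

Let `om` be the growth bound and suppose that `om` lies in the resolvent set. The resolvents at
real points just to the right of `om` are then bounded, and by normality of the cone
`‖R(z)x‖ ≤ C‖R(Re z)x‖` for `x` in the cone, so that the resolvents are uniformly bounded on a
vertical strip to the right of `om`. Plancherel's theorem for Hilbert space valued functions and
the resolvent identity give a uniform `L^2` bound for the orbits `exp(-γs)T(s)x`, `γ > om`, and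
Datko's argument gives `‖T(t)‖ < exp(om t)` for some `t > 0`, a contradiction.
-/

set_option autoImplicit false

open Filter Topology Pool.Agent.Q301.SG

namespace Pool.Agent.Results.MP_e5770a_an.SpectralBoundIsGrowthBound

universe u v

/-- Let `E ≠ 0` be a real Hilbert space with a closed, normal, generating cone `K`, `H` its
complexification, and `T` a strongly continuous group on `H` all of whose operators are positive.
Then the growth bound `ω = lim log ‖T t‖ / t` is the supremum of the real parts of the spectrum of
the generator, and it belongs to the spectrum. -/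
theorem result :
    ∀ (E : Type u) [NormedAddCommGroup E] [InnerProductSpace ℝ E] [CompleteSpace E] [Nontrivial E]
      (H : Type v) [NormedAddCommGroup H] [InnerProductSpace ℂ H] [CompleteSpace H]
      (ι : E →ₗ[ℝ] H) (K : Set E) (T : ℝ → H →L[ℂ] H),
      IsComplexification ι → IsOrderCone K → IsC0Group T →
      (∀ t : ℝ, ∀ x ∈ K, ∃ y ∈ K, T t (ι x) = ι y) →
      ∃ ω : ℝ, Tendsto (fun t : ℝ => Real.log ‖T t‖ / t) atTop (𝓝 ω) ∧
        IsLUB (Complex.re '' {z : ℂ | ¬ InRes T z}) ω ∧ ¬ InRes T (ω : ℂ) := by
  intro E _ _ _ _ H _ _ _ ι K T hι hK hT hpos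
  haveI : Nontrivial H := by
    obtain ⟨x, hx⟩ := exists_ne (0 : E)
    refine ⟨⟨ι x, 0, fun h => hx ?_⟩⟩
    rw [← norm_eq_zero, ← iota_norm hι, h, norm_zero]
  have hs := om_spec hK hι hT hpos
  refine ⟨om T, tendsto_om hT, ⟨?_, ?_⟩, hs⟩
  · rintro _ ⟨z, hz, rfl⟩
    by_contra hlt
    push Not at hlt
    obtain ⟨ω, h1, h2⟩ := exists_between hlt
    exact hz (inRes_of hT (gb_of_om_lt hT h1) h2)
  · intro b hb
    have := hb ⟨(om T : ℂ), hs, rfl⟩
    simpa using this

end Pool.Agent.Results.MP_e5770a_an.SpectralBoundIsGrowthBound
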